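import Pool.Agent.MP_81f5b7_pr.H66.Spec

/-! The exceptional set explains all rejections. -/

set_option linter.unusedSectionVars false

namespace Pool.Agent.MP_81f5b7_pr.H66

open Finset
open scoped Classical

namespace STAR

variable {V : Type} [Fintype V] [DecidableEq V] {τ : V → C3} {Z C D : Finset V}
  {Γ B : Finset (Sym2 V)} {χ σ σ₁ : V → C3} {x y : V} {S : Finset (V → C3)}
  {l : List (Finset (Sym2 V))}

/-- `χ` on `C` and `σ` elsewhere -/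
def ov (C : Finset V) (χ σ : V → C3) (v : V) : C3 := if v ∈ C then χ v else σ v

theorem ov_in (h : x ∈ C) : ov C χ σ x = χ x := if_pos h

theorem ov_out (h : x ∉ C) : ov C χ σ x = σ x := if_neg h

theorem ov_S0 (h : ∀ x ∈ C, al τ Z x (χ x)) (hσ : σ ∈ S0 τ Z) : ov C χ σ ∈ S0 τ Z := by
  refine mem_S0.2 fun v => ?_
  by_cases hv : v ∈ C
  · rw [ov_in hv]; exact h v hv
  · rw [ov_out hv]; exact mem_S0.1 hσ v

theorem ov_ne (h : Aut τ Z Γ C χ) (hσ : σ ∈ S0 τ Z) (hx : x ∈ C) (hxy : y ≠ x)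
    (he : s(x, y) ∈ Γ) : ov C χ σ x ≠ ov C χ σ y := by
  intro e
  rw [ov_in hx] at e
  have h1 := (h x hx).2 y hxy he (e ▸ mem_S0.1 (ov_S0 (fun x hx => (h x hx).1) hσ) y)
  rw [ov_in h1.1] at e
  exact h1.2 e.symm

theorem ov_bi (h : Aut τ Z Γ C χ) (hσ : σ ∈ S0 τ Z) {e : Sym2 V} (he : e ∈ Γ) (hb : bi σ e) :
    bi (ov C χ σ) e := by
  induction e using Sym2.ind with
  | _ x y =>
    rw [bi_mk] at hb ⊢
    have hxy : x ≠ y := fun e => hb (by rw [e])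
    by_cases hx : x ∈ C
    · exact ov_ne h hσ hx hxy.symm he
    · by_cases hy : y ∈ C
      · exact (ov_ne h hσ hy hxy (Sym2.eq_swap ▸ he)).symm
      · rwa [ov_out hx, ov_out hy]

theorem ov_run (h : Aut τ Z Γ C χ) (hσ : σ ∈ S0 τ Z) (hl : ∀ B ∈ l, B ⊆ Γ) (h1 : σ ∈ run S l)
    (h2 : ov C χ σ ∈ S) : ov C χ σ ∈ run S l :=
  (mem_run h1).2 ⟨h2, fun B hB _ h3 e he => ov_bi h hσ (hl B hB he) (h3 e he)⟩

theorem sub_un (h : B ∈ l) : B ⊆ un l := by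
  induction l with
  | nil => exact absurd h List.not_mem_nil
  | cons B' l ih =>
    rcases List.mem_cons.1 h with rfl | h
    · exact subset_union_left
    · exact (ih h).trans subset_union_right

theorem cld_ne (h : Cld τ Z σ D l) (hσ : σ₁ ∈ S0 τ Z) (hB : B ∈ l) (hx : x ∈ D)
    (he : s(x, y) ∈ B) (hb : σ x ≠ σ y) : ov D σ σ₁ x ≠ ov D σ σ₁ y := by
  rw [ov_in hx]
  by_cases hy : y ∈ D
  · rwa [ov_in hy]
  · rw [ov_out hy]
    exact fun e => hy (h B hB x hx y (fun e' => hy (e' ▸ hx)) he (e ▸ mem_S0.1 hσ y))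

theorem cld_bi (h : Cld τ Z σ D l) (hσ : σ₁ ∈ S0 τ Z) (hB : B ∈ l) {e : Sym2 V} (he : e ∈ B)
    (hb : bi σ e) (hb' : bi σ₁ e) : bi (ov D σ σ₁) e := by
  induction e using Sym2.ind with
  | _ x y =>
    rw [bi_mk] at hb hb' ⊢
    by_cases hx : x ∈ D
    · exact cld_ne h hσ hB hx he hb
    · by_cases hy : y ∈ D
      · exact (cld_ne h hσ hB hy (Sym2.eq_swap ▸ he) hb.symm).symm
      · rwa [ov_out hx, ov_out hy]

theorem cld_run (h : Cld τ Z σ D l) (hσ : σ₁ ∈ S0 τ Z) (h0 : σ ∈ run S l) (h1 : σ₁ ∈ run S l)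
    (h2 : ov D σ σ₁ ∈ S) : ov D σ σ₁ ∈ run S l :=
  (mem_run h0).2 ⟨h2, fun B hB h3 h4 e he =>
    cld_bi h hσ hB he (h4 e he) (((mem_run h0).1 h1).2 B hB h3 h4 e he)⟩

theorem hit_app {z : V × C3} {l' : List (Finset (Sym2 V))} (h : Hit z (run S l) l') :
    Hit z S (l ++ l') := by
  induction l generalizing S with
  | nil => exact h
  | cons B l ih => exact Or.inr (ih h)

theorem run_pre {l' : List (Finset (Sym2 V))} (h : σ ∈ run S (l ++ l')) : σ ∈ run S l := by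
  rw [run_append] at h
  exact run_sub _ _ h

/-- frozen vertices lie in every closed set -/
theorem frozen {l₂ : List (Finset (Sym2 V))} (hM : Mj S) (hS : S ⊆ S0 τ Z) (hσ : σ ∈ run S l₂)
    (h0 : ∀ v, Fz S v → v ∈ D) (hH : ∀ v b, Hit (v, b) S l₂ → v ∈ D)
    (hO : ∀ σ₁ ∈ S, ov D σ σ₁ ∈ S) (l : List (Finset (Sym2 V))) :
    ∀ r, l₂ = l ++ r → Cld τ Z σ D l → ∀ v, Fz (run S l) v → v ∈ D := by
  induction l using List.reverseRecOn with
  | nil => exact fun _ _ _ => h0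
  | append_singleton l B ih =>
    intro r hr hC v hv
    have hC' : Cld τ Z σ D l := fun B' hB' => hC B' (List.mem_append_left _ hB')
    have ih' := ih (B :: r) (by simpa using hr) hC'
    have hσ' : σ ∈ run S (l ++ [B]) := run_pre (hr ▸ hσ)
    rw [run_snoc] at hv hσ'
    rcases gr_cases (run S l) B with e | ⟨p, q, hpq, rfl, hn, e⟩
    · exact ih' v (e ▸ hv)
    rw [e] at hv hσ'
    by_cases hf : Fz (run S l) v
    · exact ih' v hf
    by_cases hpq' : ¬Fz (run S l) p ∧ ¬Fz (run S l) q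
    · obtain ⟨b, h1, h2⟩ := spont (hM.run l) hpq'.1 hpq'.2 hf hn hv
      refine hH v b ?_
      rw [hr, List.append_assoc]
      exact hit_app (Or.inl ⟨p, q, hpq, rfl, h1, h2⟩)
    by_contra hvD
    obtain ⟨σ₁, h1, h2⟩ := not_Fz hf (σ v)
    have h3 := run_sub _ _ h1
    obtain ⟨h4, h5⟩ := mem_filter.1 hσ'
    have h6 : ov D σ σ₁ p ≠ ov D σ σ₁ q := by
      have hB : ({s(p, q)} : Finset (Sym2 V)) ∈ l ++ [{s(p, q)}] := by simp
      by_cases hp : Fz (run S l) p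
      · exact cld_ne hC (hS h3) hB (ih' p hp) (mem_singleton_self _) h5
      · have hq : Fz (run S l) q := by
          by_contra hq
          exact hpq' ⟨hp, hq⟩
        exact (cld_ne hC (hS h3) hB (ih' q hq) (mem_singleton.2 Sym2.eq_swap) h5.symm).symm
    have h7 := hv _ (mem_filter.2 ⟨cld_run hC' (hS h3) h4 h1 (hO σ₁ h3), h6⟩) σ hσ'
    rw [ov_out hvD] at h7
    exact h2 h7

end STAR

open STAR in
theorem rowSTAR : SSTAR := by
  intro V _ _ τ Z K l₀ l₁ l₂ σ w u S hNM hσ hu hS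
  have hσ0 : σ ∈ S0 τ Z := run_sub _ _ hσ
  have hσ1 : σ ∈ run (S0 τ Z) l₀ := run_pre (run_pre hσ)
  have hσ2 : σ ∈ run S l₂ := by
    rw [List.append_assoc, run_append] at hσ
    rw [hS, ← run_append]
    exact mem_run_pin hσ (filter_subset _ _) (mem_filter.2 ⟨hσ1, rfl⟩)
  have hσ3 : σ ∈ S := run_sub _ _ hσ2
  have hS1 : ∀ σ₁ ∈ S, σ₁ ∈ run (S0 τ Z) l₀ ∧ σ₁ w = σ w := fun σ₁ h =>
    mem_filter.1 (run_sub _ _ (hS ▸ h))
  have hS0 : S ⊆ S0 τ Z := fun σ₁ h => run_sub _ _ (hS1 σ₁ h).1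
  have hov : ∀ C χ, Aut τ Z (un (l₀ ++ l₁)) C χ → u ∉ C → ∀ σ₁ ∈ S, ov C χ σ₁ ∈ S := by
    intro C χ h huC σ₁ h1
    have h2 := ov_run h (hS0 h1) (fun B hB => sub_un (List.mem_append_left _ hB)) (hS1 σ₁ h1).1
      (ov_S0 (fun x hx => (h x hx).1) (hS0 h1))
    rw [hS]
    refine ov_run h (hS0 h1) (fun B hB => sub_un (List.mem_append_right _ hB)) (hS ▸ h1)
      (mem_filter.2 ⟨h2, ?_⟩)
    rw [← mem_cls.1 hu _ h2, ov_out huC, mem_cls.1 hu _ (hS1 σ₁ h1).1, (hS1 σ₁ h1).2]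
  have hbad : ∀ v ∉ BadV τ Z K (un (l₀ ++ l₁)) u, v ∉ Z ∧ ∀ b, al τ Z v b →
      ∃ C χ, Aut τ Z (un (l₀ ++ l₁)) C χ ∧ v ∈ C ∧ χ v = b ∧ C.card ≤ K ∧ u ∉ C := by
    intro v hv
    refine ⟨fun h => hv (mem_filter.2 ⟨mem_univ _, Or.inl h⟩), fun b hb => ?_⟩
    by_contra h
    exact hv (mem_filter.2 ⟨mem_univ _, Or.inr ⟨b, hb, h⟩⟩)
  have one : ∀ v ∉ BadV τ Z K (un (l₀ ++ l₁)) u,
      ¬Fz S v ∧ ∀ b, (Cl S (v, b)).card ≤ K := by
    intro v hv
    obtain ⟨hZ, h⟩ := hbad v hv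
    refine ⟨fun hf => ?_, fun b => ?_⟩
    · have h1 := third_ne ((mem_S0.1 hσ0 v).2 hZ)
      obtain ⟨C, χ, h2, h3, h4, -, h5⟩ := h _ ((al_of_notMem hZ).2 h1.1)
      have h6 := hf _ (hov C χ h2 h5 σ hσ3) σ hσ3
      rw [ov_in h3, h4] at h6
      exact h1.2 h6
    · rcases (Cl S (v, b)).eq_empty_or_nonempty with e | ⟨y, hy⟩
      · rw [e]; exact Nat.zero_le K
      obtain ⟨σ₂, h1, h2⟩ := (mem_Cl.1 hy).2.1
      obtain ⟨C, χ, h3, h4, h5, h6, h7⟩ := h b ((show σ₂ v = b from h2) ▸ mem_S0.1 (hS0 h1) v)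
      refine le_trans (card_le_card fun z hz => ?_) h6
      obtain ⟨-, -, h8, h9⟩ := mem_Cl.1 hz
      by_contra hzC
      refine h8 fun a ha a' ha' => ?_
      have := h9 _ (hov C χ h3 h7 a ha) _ (hov C χ h3 h7 a' ha') ((ov_in h4).trans h5)
        ((ov_in h4).trans h5)
      rwa [ov_out hzC, ov_out hzC] at this
  refine ⟨one, fun A hA hH la B lb hl D hD hC x y hxy he hσxy => ?_⟩
  obtain rfl : B = {s(x, y)} := by
    have h1 : B.card ≤ 1 := hNM B (by rw [hl]; simp)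
    exact eq_singleton_iff_unique_mem.2 ⟨he, fun e h => card_le_one.1 h1 e h _ he⟩
  have hcase : (∃ lc, la = l₀ ++ l₁ ++ lc ∧ l₂ = lc ++ {s(x, y)} :: lb) ∨
      ∃ bs, l₀ ++ l₁ = la ++ {s(x, y)} :: bs := by
    rcases List.append_eq_append_iff.1 hl with h | ⟨bs, h1, h2⟩
    · exact Or.inl h
    · cases bs with
      | nil => exact Or.inl ⟨[], by simpa using h1.symm, by simpa using h2.symm⟩
      | cons B bs =>
        obtain rfl : {s(x, y)} = B := (List.cons.inj h2).1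
        exact Or.inr ⟨bs, h1⟩
  rcases hcase with ⟨lc, rfl, h2⟩ | ⟨bs, h1⟩
  · have hM : Mj S := hS ▸ (((Mj_S0 τ Z).run l₀).pin w (σ w)).run l₁
    have hfr := frozen (D := D) hM hS0 hσ2
      (fun v hv => by
        by_contra h
        exact (one v fun h' => h (hD (hA h'))).1 hv)
      (fun v b h => hD (hH v b h))
      (fun σ₁ h1 => by
        have h3 := cld_run (fun B hB => hC B (by simp [hB])) (hS0 h1) hσ1 (hS1 σ₁ h1).1
          (ov_S0 (fun x _ => mem_S0.1 hσ0 x) (hS0 h1))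
        rw [hS]
        refine cld_run (fun B hB => hC B (by simp [hB])) (hS0 h1) (hS ▸ hσ3) (hS ▸ h1)
          (mem_filter.2 ⟨h3, ?_⟩)
        by_cases hw : w ∈ D
        · exact ov_in hw
        · rw [ov_out hw, (hS1 σ₁ h1).2])
      lc _ h2 fun B hB => hC B (List.mem_append_right _ hB)
    rw [h2, run_append, run_cons] at hσ2
    have h3 := run_sub _ _ hσ2
    have h4 := gr_rej h3 hσxy
    by_cases hf : Fz (run S lc) x
    · exact hfr x hf
    refine hD (hH x (σ x) ?_)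
    rw [h2]
    have h5 := gr_sub _ _ h3
    refine hit_app (Or.inl ⟨x, y, hxy, rfl, mem_Cl.2 ⟨hf, ⟨σ, h5, rfl⟩, hf,
      fun a _ a' _ e e' => e.trans e'.symm⟩, mem_Cl.2 ⟨hf, ⟨σ, h5, rfl⟩, fun h => hf ?_,
      fun a ha a' ha' e e' => ?_⟩⟩)
    · intro a ha a' ha'
      rw [h4 a ha, h4 a' ha', h a ha a' ha']
    · rw [← h4 a ha, ← h4 a' ha']
      exact e.trans e'.symm
  · by_contra hx
    obtain ⟨C, χ, h2, h3, -⟩ := (hbad x fun h => hx (hD (hA h))).2 (σ x) (mem_S0.1 hσ0 x)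
    rw [hl, run_append, run_cons] at hσ
    have h4 := run_sub _ _ hσ
    refine ov_ne h2 hσ0 h3 hxy.symm (sub_un (B := {s(x, y)}) (by rw [h1]; simp) he)
      (gr_rej h4 hσxy _ (ov_run h2 hσ0 (fun B hB => sub_un (by rw [h1]; simp [hB]))
        (gr_sub _ _ h4) (ov_S0 (fun x hx => (h2 x hx).1) hσ0)))

end Pool.Agent.MP_81f5b7_pr.H66
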